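import Pool.Agent.Work.MP_91103f_lv.Interface

/-!
# MP_91103f_co, block LINK (helper20)
-/

namespace Pool.TriLev.helper20

open Pool.Agent.Work.MP_91103f_co Pool.TriLev

open Classical

variable {V : Type} {G : SimpleGraph V} {F : Set (Finset V)}

lemma zp_shift (v a b : V) (k : ℕ) : zp F v b (nx F v a b) k = zp F v a b (k + 1) := by
  induction k with
  | zero => rfl
  | succ k ih =>
    show ((zp F v b (nx F v a b) k).2, nx F v (zp F v b (nx F v a b) k).1
      (zp F v b (nx F v a b) k).2) = _
    rw [ih]
    rfl

lemma z_shift (v a b : V) (k : ℕ) : z F v b (nx F v a b) k = z F v a b (k + 1) := by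
  unfold z
  rw [zp_shift]

lemma adj_dist (hT : Tri V G F) (r : V) {x y : V} (h : G.Adj x y) :
    G.dist r y = G.dist r x ∨ G.dist r y = G.dist r x + 1 ∨ G.dist r y + 1 = G.dist r x := by
  have h1 : G.dist r y ≤ G.dist r x + 1 := by
    have := hT.conn.dist_triangle (u := r) (v := x) (w := y)
    rwa [SimpleGraph.dist_eq_one_iff_adj.mpr h] at this
  have h2 : G.dist r x ≤ G.dist r y + 1 := by
    have := hT.conn.dist_triangle (u := r) (v := y) (w := x)
    rwa [SimpleGraph.dist_eq_one_iff_adj.mpr h.symm] at this
  omega

lemma exists_parent (hT : Tri V G F) {r x : V} (hx : x ≠ r) : ∃ p, Ch G r p x := by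
  obtain ⟨w, hw⟩ := hT.conn.exists_walk_length_eq_dist x r
  cases w with
  | nil => exact absurd rfl hx
  | cons h w' =>
    rename_i p
    refine ⟨p, h.symm, ?_⟩
    have h1 : w'.length + 1 = G.dist x r := by
      rw [← hw]; rfl
    have h2 : G.dist p r ≤ w'.length := SimpleGraph.dist_le w'
    have h3 := adj_dist hT r h
    rw [SimpleGraph.dist_comm] at h1 h2
    omega

/-- trichotomy -/
lemma tricho (hT : Tri V G F) (r : V) {x y : V} (h : G.Adj x y) :
    Ch G r x y ∨ G.dist r y = G.dist r x ∨ Ch G r y x := by
  have h3 := adj_dist hT r h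
  rcases h3 with h3 | h3 | h3
  · exact Or.inr (Or.inl h3)
  · exact Or.inl ⟨h, h3⟩
  · exact Or.inr (Or.inr ⟨h.symm, h3.symm⟩)

theorem stmt_LINK (hLV : Stmt_LV) (hLH : Stmt_LH) : Stmt_LINK := by
  intro V G F hT r x hx
  obtain ⟨p, hp⟩ := exists_parent hT hx
  have hN6 : 6 ≤ (G.neighborSet x).ncard := (hT.deg x).2
  -- a neighbour `a` of `p` in the link of `x` which is not a parent
  obtain ⟨a, hpa, hna⟩ : ∃ a, T3 F x p a ∧ ¬ Ch G r a x := by
    obtain ⟨c₁, c₂, hne, t1, t2, -⟩ := hT.exists_two hp.1.symm
    by_contra hcon
    push Not at hcon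
    have h1 := hcon c₁ t1
    have h2 := hcon c₂ t2
    have h3 : T3 F x c₂ c₁ := hLV hT r x c₂ c₁ h2 h1 hne.symm
    obtain ⟨hper, hinj, -⟩ := hT.z_cycle t1.swap'
    have e2 : z F x c₁ p 2 = c₂ := by
      have := hT.z_nb t1.swap' 0 (c := c₂) t2
      rcases this with h | h
      · exact absurd h hne.symm
      · exact h.symm
    have h4 := hT.z_nb t1.swap' 1 (c := c₁) (by
      show T3 F x (z F x c₁ p 2) c₁
      rw [e2]; exact h3)
    rcases h4 with h4 | h4
    · exact absurd h4 t1.1.2.1.symm
    · have := hinj 0 3 (by omega) (by omega) h4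
      omega
  set b := nx F x p a with hb
  have hab : T3 F x a b := (hT.nx_spec hpa).2.1
  obtain ⟨hper, hinj, hsurj⟩ := hT.z_cycle hab
  set N := (G.neighborSet x).ncard with hN
  have hzs : ∀ k, z F x a b k = z F x p a (k + 1) := z_shift x p a
  have hperw := (hT.z_cycle hpa).1
  have hzp : z F x a b (N - 1) = p := by
    rw [hzs, show N - 1 + 1 = 0 + N by omega, hperw]
    rfl
  have hzN : z F x a b N = a := by
    have := hper 0
    rwa [zero_add] at this
  -- the parents
  have hpar : ∀ j < N, Ch G r (z F x a b j) x → j = N - 1 ∨ j = N - 2 := by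
    intro j hj hc
    by_cases hjN : j = N - 1
    · exact Or.inl hjN
    right
    have hne : p ≠ z F x a b j := by
      intro h
      rw [← hzp] at h
      exact hjN (hinj _ _ (by omega) hj h).symm
    have h1 : T3 F x p (z F x a b j) := hLV hT r x p _ hp hc hne
    have h2 := hT.z_nb hab (N - 2) (c := z F x a b j) (by
      rw [show N - 2 + 1 = N - 1 by omega, hzp]; exact h1)
    rcases h2 with h2 | h2
    · exact hinj _ _ hj (by omega) h2
    · exfalso
      rw [show N - 2 + 2 = N by omega, hzN] at h2
      rw [h2] at hc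
      exact hna hc
  have hadj : ∀ k, G.Adj x (z F x a b k) := hT.z_adj hab
  -- a neighbour of a parent which is not a parent has the level of x
  have hlev : ∀ q c, Ch G r q x → T3 F x q c → ¬ Ch G r c x → G.dist r c = G.dist r x := by
    intro q c hq hqc hc
    have h1 : G.Adj q c := hT.adj hqc.swap.swap'
    have h2 := adj_dist hT r h1
    have h3 := tricho hT r (hT.adj' hqc)
    rcases h3 with h3 | h3 | h3
    · exfalso
      have := h3.2
      have := hq.2
      omega
    · exact h3
    · exact absurd h3 hc
  have hface : ∀ k, T3 F x (z F x a b (k + 1)) (z F x a b k) := fun k =>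
    (hT.z_face hab k).swap'
  have hlev0 : G.dist r a = G.dist r x := hlev p a hp hpa hna
  -- the vertices with the level of x
  have hsame : ∀ j < N, G.dist r (z F x a b j) = G.dist r x →
      j = 0 ∨ j = N - 2 ∨ (j = N - 3 ∧ Ch G r (z F x a b (N - 2)) x) := by
    intro j hj hl
    obtain ⟨w, hw1, hw2, hw3⟩ := hLH hT r x (z F x a b j) (hadj j) hl.symm
    obtain ⟨i, hi, rfl⟩ := hsurj w hw1.1.symm
    have hi' := hpar i hi hw1
    have hi1 : 1 ≤ i := by omega
    have h2 := hT.z_nb hab (i - 1) (c := z F x a b j) (by
      rw [show i - 1 + 1 = i by omega]; exact hw3.swap')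
    rw [show i - 1 + 2 = i + 1 by omega] at h2
    rcases hi' with rfl | rfl
    · rcases h2 with h2 | h2
      · right; left
        have := hinj _ _ hj (by omega) h2
        omega
      · left
        rw [show N - 1 + 1 = N by omega, hzN] at h2
        exact hinj _ _ hj (by omega) (h2.trans (z_zero x a b).symm)
    · rcases h2 with h2 | h2
      · right; right
        have := hinj _ _ hj (by omega) h2
        exact ⟨by omega, hw1⟩
      · exfalso
        rw [show N - 2 + 1 = N - 1 by omega, hzp] at h2
        rw [h2] at hl
        have := hp.2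
        omega
  by_cases hq : Ch G r (z F x a b (N - 2)) x
  · refine ⟨a, b, N - 4, hab, by omega, Or.inr (by omega), hlev0, ?_, ?_, ?_⟩
    · intro i hi1 hi2
      rcases tricho hT r (hadj i) with h | h | h
      · exact h
      · exfalso
        rcases hsame i (by omega) h with h | h | h
        · omega
        · omega
        · omega
      · exfalso
        rcases hpar i (by omega) h with h | h <;> omega
    · rw [show N - 4 + 1 = N - 3 by omega]
      refine hlev _ _ hq ?_ ?_
      · have := hface (N - 3)
        rwa [show N - 3 + 1 = N - 2 by omega] at this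
      · intro hc
        rcases hpar _ (by omega) hc with h | h <;> omega
    · intro i hi1 hi2
      have : i = N - 2 ∨ i = N - 1 := by omega
      rcases this with rfl | rfl
      · exact hq
      · rw [hzp]; exact hp
  · refine ⟨a, b, N - 3, hab, by omega, Or.inl (by omega), hlev0, ?_, ?_, ?_⟩
    · intro i hi1 hi2
      rcases tricho hT r (hadj i) with h | h | h
      · exact h
      · exfalso
        rcases hsame i (by omega) h with h | h | h
        · omega
        · omega
        · exact hq h.2
      · exfalso
        rcases hpar i (by omega) h with h | h <;> omega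
    · rw [show N - 3 + 1 = N - 2 by omega]
      refine hlev _ _ hp ?_ hq
      have := hface (N - 2)
      rwa [show N - 2 + 1 = N - 1 by omega, hzp] at this
    · intro i hi1 hi2
      have : i = N - 1 := by omega
      rw [this, hzp]
      exact hp

end Pool.TriLev.helper20
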